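import Pool.Agent.H87.AF.WtDefs

/-!
helper14 (project MP_28250c_AF): the phase function `psi` of degree one (idea of helper16).
-/

set_option autoImplicit false

namespace ACpFrege

theorem psi_zero {q : ℕ} (hq : 1 ≤ q) : psi q 0 = 0 := by
  unfold psi
  rw [zero_pow (by omega), zero_div]

theorem psi_norm {q : ℕ} (hq : 1 ≤ q) (z : ℂ) : ‖psi q z‖ = ‖z‖ := by
  by_cases hz : z = 0
  · rw [hz, psi_zero hq]
  · have hn : ‖z‖ ≠ 0 := norm_ne_zero_iff.2 hz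
    obtain ⟨n, rfl⟩ : ∃ n, q = n + 1 := ⟨q - 1, by omega⟩
    unfold psi
    rw [norm_div, norm_pow, Complex.norm_real, norm_pow, norm_norm, Nat.add_sub_cancel, pow_succ, mul_div_assoc, mul_comm,
      div_mul_cancel₀ _ (pow_ne_zero n hn)]

theorem psi_mul {q : ℕ} {c : ℂ} (hc : ‖c‖ = 1) (z : ℂ) : psi q (c * z) = c ^ q * psi q z := by
  unfold psi
  rw [norm_mul, hc, one_mul, mul_pow, mul_div_assoc]

/-- `psi` in polar form. -/
theorem psi_polar {q : ℕ} (hq : 1 ≤ q) {z : ℂ} (hz : z ≠ 0) : psi q z = (‖z‖ : ℂ) * (z / (‖z‖ : ℂ)) ^ q := by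
  have hn : (‖z‖ : ℂ) ≠ 0 := by exact_mod_cast norm_ne_zero_iff.2 hz
  obtain ⟨n, rfl⟩ : ∃ n, q = n + 1 := ⟨q - 1, by omega⟩
  unfold psi
  rw [Nat.add_sub_cancel, Complex.ofReal_pow, div_pow]
  field_simp
  ring

theorem pow_lip {u v : ℂ} (hu : ‖u‖ = 1) (hv : ‖v‖ = 1) (q : ℕ) : ‖u ^ q - v ^ q‖ ≤ q * ‖u - v‖ := by
  induction q with
  | zero => simp
  | succ n ih =>
    have h : u ^ (n + 1) - v ^ (n + 1) = u ^ n * (u - v) + (u ^ n - v ^ n) * v := by ring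
    rw [h]
    refine (norm_add_le _ _).trans ?_
    rw [norm_mul, norm_mul, norm_pow, hu, hv, one_pow, one_mul, mul_one]
    push_cast
    linarith

theorem psi_lip_aux {q : ℕ} (hq : 1 ≤ q) {z w : ℂ} (h : ‖z‖ ≤ ‖w‖) : ‖psi q z - psi q w‖ ≤ (2 * q + 1) * ‖z - w‖ := by
  by_cases hw : w = 0
  · rw [hw, norm_zero] at h
    have hz : z = 0 := norm_le_zero_iff.1 h
    rw [hz, hw, sub_self, norm_zero]
    positivity
  by_cases hz : z = 0
  · rw [hz, psi_zero hq, zero_sub, norm_neg, psi_norm hq, zero_sub, norm_neg]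
    have : (0 : ℝ) ≤ 2 * q := by positivity
    nlinarith [norm_nonneg w]
  have hnz : 0 < ‖z‖ := norm_pos_iff.2 hz
  have hnw : 0 < ‖w‖ := norm_pos_iff.2 hw
  have hcz : (‖z‖ : ℂ) ≠ 0 := by exact_mod_cast hnz.ne'
  have hcw : (‖w‖ : ℂ) ≠ 0 := by exact_mod_cast hnw.ne'
  set u := z / (‖z‖ : ℂ) with hu
  set v := w / (‖w‖ : ℂ) with hv
  have hu1 : ‖u‖ = 1 := by rw [hu, norm_div, Complex.norm_real, norm_norm, div_self hnz.ne']
  have hv1 : ‖v‖ = 1 := by rw [hv, norm_div, Complex.norm_real, norm_norm, div_self hnw.ne']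
  rw [psi_polar hq hz, psi_polar hq hw, ← hu, ← hv]
  have e1 : (‖z‖ : ℂ) * u ^ q - (‖w‖ : ℂ) * v ^ q = (‖z‖ : ℂ) * (u ^ q - v ^ q) - ((‖w‖ - ‖z‖ : ℝ) : ℂ) * v ^ q := by
    push_cast
    ring
  have hd : ‖w‖ - ‖z‖ ≤ ‖z - w‖ := by
    rw [norm_sub_rev]
    exact norm_sub_norm_le w z
  have h1 : ‖z‖ * ‖u - v‖ ≤ 2 * ‖z - w‖ := by
    have e2 : (‖z‖ : ℂ) * (u - v) = (z - w) + ((‖w‖ - ‖z‖ : ℝ) : ℂ) * v := by
      have hzu : (‖z‖ : ℂ) * u = z := by rw [hu]; field_simp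
      have hwv : (‖w‖ : ℂ) * v = w := by rw [hv]; field_simp
      push_cast
      linear_combination hzu - hwv
    have e3 : ‖z‖ * ‖u - v‖ = ‖(‖z‖ : ℂ) * (u - v)‖ := by rw [norm_mul, Complex.norm_real, norm_norm]
    rw [e3, e2]
    refine (norm_add_le _ _).trans ?_
    rw [norm_mul, hv1, mul_one, Complex.norm_real, Real.norm_of_nonneg (by linarith)]
    linarith
  have h2 := pow_lip hu1 hv1 q
  rw [e1]
  refine (norm_sub_le _ _).trans ?_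
  rw [norm_mul, norm_mul, Complex.norm_real, Complex.norm_real, norm_norm, norm_pow, hv1, one_pow, mul_one,
    Real.norm_of_nonneg (by linarith)]
  have h3 : ‖z‖ * ‖u ^ q - v ^ q‖ ≤ q * (2 * ‖z - w‖) := by
    calc ‖z‖ * ‖u ^ q - v ^ q‖ ≤ ‖z‖ * (q * ‖u - v‖) := mul_le_mul_of_nonneg_left h2 hnz.le
      _ = q * (‖z‖ * ‖u - v‖) := by ring
      _ ≤ _ := mul_le_mul_of_nonneg_left h1 (Nat.cast_nonneg q)
  linarith

/-- `psi` is Lipschitz. -/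
theorem psi_lip {q : ℕ} (hq : 1 ≤ q) (z w : ℂ) : ‖psi q z - psi q w‖ ≤ (2 * q + 1) * ‖z - w‖ := by
  rcases le_total ‖z‖ ‖w‖ with h | h
  · exact psi_lip_aux hq h
  · rw [norm_sub_rev, norm_sub_rev z w]
    exact psi_lip_aux hq h

theorem psi_om {q : ℕ} [NeZero q] (k : ZMod q) (z : ℂ) : psi q (om q k * z) = psi q z := by
  rw [psi_mul (om_norm k), ← om_nsmul]
  have : (q : ℕ) • k = 0 := by
    rw [nsmul_eq_mul, ZMod.natCast_self, zero_mul]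
  rw [this, om_zero, one_mul]

theorem psi_nsq {ι : Type} [Fintype ι] {q : ℕ} (hq : 1 ≤ q) (x : ι → ℂ) : ∑ u, ‖psi q (x u)‖ ^ 2 = nsq x := by
  unfold nsq
  exact Finset.sum_congr rfl fun u _ => by rw [psi_norm hq]

theorem psi_kappa {ι : Type} [Fintype ι] {q : ℕ} (hq : 1 ≤ q) (x y : ι → ℂ) :
    ∑ u, ‖psi q (x u) - psi q (y u)‖ ^ 2 ≤ (2 * q + 1) ^ 2 * nsq (x - y) := by
  unfold nsq
  rw [Finset.mul_sum]
  refine Finset.sum_le_sum fun u _ => ?_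
  rw [← mul_pow]
  exact pow_le_pow_left₀ (norm_nonneg _) (psi_lip hq _ _) 2

theorem Phi_smul {M q : ℕ} {c : ℂ} (hc : ‖c‖ = 1) (f : Fin M → ℝ) (x : Fin M → ℂ) : Phi q f (c • x) = c ^ q * Phi q f x := by
  unfold Phi
  rw [Finset.mul_sum]
  refine Finset.sum_congr rfl fun u _ => ?_
  rw [Pi.smul_apply, smul_eq_mul, psi_mul hc]
  ring

end ACpFrege
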