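import Pool.Agent.H88.AF.Av

/-!
helper14 (project MP_28250c_AF): sums with random signs: second and fourth moment, Paley-Zygmund, exponential tail; power mean.
-/

set_option autoImplicit false
set_option linter.unusedSectionVars false

namespace ACpFrege

section signs

variable {ι : Type}

/-- Signs. -/
def sg (f : ι → Bool) (u : ι) : ℝ := if f u then 1 else -1

theorem sg_sq (f : ι → Bool) (u : ι) : sg f u * sg f u = 1 := by
  unfold sg
  split_ifs <;> norm_num

theorem sg_or (f : ι → Bool) (u : ι) : sg f u = 1 ∨ sg f u = -1 := by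
  unfold sg
  split_ifs <;> simp

variable [DecidableEq ι]

/-- The flip of the value at `v`. -/
def flp (v : ι) (f : ι → Bool) : ι → Bool := fun u => if u = v then !(f u) else f u

theorem flp_flp (v : ι) (f : ι → Bool) : flp v (flp v f) = f := by
  funext u
  unfold flp
  by_cases h : u = v <;> simp [h]

/-- The flip as a bijection. -/
def flpE (v : ι) : (ι → Bool) ≃ (ι → Bool) where
  toFun := flp v
  invFun := flp v
  left_inv := flp_flp v
  right_inv := flp_flp v

theorem sg_flp_self (v : ι) (f : ι → Bool) : sg (flp v f) v = - sg f v := by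
  unfold sg flp
  cases f v <;> simp

theorem sg_flp_ne {u v : ι} (h : u ≠ v) (f : ι → Bool) : sg (flp v f) u = sg f u := by
  unfold sg flp
  simp [h]

variable [Fintype ι]

theorem av_flp (v : ι) (g : (ι → Bool) → ℝ) : av (fun f => g (flp v f)) = av g := av_comp (flpE v) g

/-- A sign is orthogonal to everything that does not depend on it. -/
theorem av_sg_mul (v : ι) (g : (ι → Bool) → ℝ) (hg : ∀ f, g (flp v f) = g f) : av (fun f => sg f v * g f) = 0 := by
  have h := av_flp v (fun f => sg f v * g f)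
  simp only [sg_flp_self, hg] at h
  have h2 : av (fun f => - sg f v * g f) = - av (fun f => sg f v * g f) := by
    rw [← av_neg]
    exact av_congr fun f => by ring
  linarith

/-- The partial sum with signs. -/
noncomputable def ps (T : Finset ι) (a : ι → ℂ) (f : ι → Bool) : ℂ := ∑ u ∈ T, (sg f u : ℂ) * a u

theorem ps_flp {v : ι} {T : Finset ι} (hv : v ∉ T) (a : ι → ℂ) (f : ι → Bool) : ps T a (flp v f) = ps T a f := by
  unfold ps
  refine Finset.sum_congr rfl fun u hu => ?_
  rw [sg_flp_ne (ne_of_mem_of_not_mem hu hv)]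

theorem ps_insert {v : ι} {T : Finset ι} (hv : v ∉ T) (a : ι → ℂ) (f : ι → Bool) :
    ps (insert v T) a f = (sg f v : ℂ) * a v + ps T a f := by
  unfold ps
  rw [Finset.sum_insert hv]

theorem norm_sq_step (s : ℝ) (hs : s * s = 1) (a S : ℂ) :
    ‖(s : ℂ) * a + S‖ ^ 2 = (‖S‖ ^ 2 + ‖a‖ ^ 2) + s * (2 * (S.re * a.re + S.im * a.im)) := by
  rw [← Complex.normSq_eq_norm_sq, ← Complex.normSq_eq_norm_sq, ← Complex.normSq_eq_norm_sq, Complex.normSq_apply,
    Complex.normSq_apply, Complex.normSq_apply]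
  simp only [Complex.add_re, Complex.add_im, Complex.mul_re, Complex.mul_im, Complex.ofReal_re, Complex.ofReal_im, zero_mul,
    sub_zero, add_zero]
  linear_combination (a.re ^ 2 + a.im ^ 2) * hs

/-- Second moment. -/
theorem ps_two (T : Finset ι) (a : ι → ℂ) : av (fun f : ι → Bool => ‖ps T a f‖ ^ 2) = ∑ u ∈ T, ‖a u‖ ^ 2 := by
  classical
  induction T using Finset.induction_on with
  | empty => simp [ps, av_const]
  | insert v T hv ih =>
    rw [Finset.sum_insert hv]
    have h1 : ∀ f : ι → Bool, ‖ps (insert v T) a f‖ ^ 2 = (‖ps T a f‖ ^ 2 + ‖a v‖ ^ 2) +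
        sg f v * (2 * ((ps T a f).re * (a v).re + (ps T a f).im * (a v).im)) := fun f => by
      rw [ps_insert hv]
      exact norm_sq_step _ (sg_sq f v) _ _
    rw [av_congr h1, av_add, av_add, ih, av_sg_mul v _ (fun f => by rw [ps_flp hv]), av_const]
    ring

/-- Fourth moment. -/
theorem ps_four (T : Finset ι) (a : ι → ℂ) :
    av (fun f : ι → Bool => (‖ps T a f‖ ^ 2) ^ 2) ≤ 3 * (∑ u ∈ T, ‖a u‖ ^ 2) ^ 2 := by
  classical
  induction T using Finset.induction_on with
  | empty => simp [ps, av_const]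
  | insert v T hv ih =>
    rw [Finset.sum_insert hv]
    set A := ∑ u ∈ T, ‖a u‖ ^ 2 with hA
    have hA0 : 0 ≤ A := Finset.sum_nonneg fun _ _ => by positivity
    have h1 : ∀ f : ι → Bool, (‖ps (insert v T) a f‖ ^ 2) ^ 2 ≤
        ((‖ps T a f‖ ^ 2) ^ 2 + (6 * ‖a v‖ ^ 2) * ‖ps T a f‖ ^ 2 + (‖a v‖ ^ 2) ^ 2) +
        sg f v * (2 * (‖ps T a f‖ ^ 2 + ‖a v‖ ^ 2) * (2 * ((ps T a f).re * (a v).re + (ps T a f).im * (a v).im))) := fun f => by
      rw [ps_insert hv, norm_sq_step _ (sg_sq f v) _ _]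
      have hc : (2 * ((ps T a f).re * (a v).re + (ps T a f).im * (a v).im)) ^ 2 ≤ 4 * ‖a v‖ ^ 2 * ‖ps T a f‖ ^ 2 := by
        rw [← Complex.normSq_eq_norm_sq, ← Complex.normSq_eq_norm_sq, Complex.normSq_apply, Complex.normSq_apply]
        nlinarith [sq_nonneg ((ps T a f).re * (a v).im - (ps T a f).im * (a v).re)]
      have hs := sg_sq f v
      generalize (2 * ((ps T a f).re * (a v).re + (ps T a f).im * (a v).im)) = D at hc ⊢
      generalize sg f v = s at hs ⊢
      have e : (‖ps T a f‖ ^ 2 + ‖a v‖ ^ 2 + s * D) ^ 2 = (‖ps T a f‖ ^ 2 + ‖a v‖ ^ 2) ^ 2 +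
          s * (2 * (‖ps T a f‖ ^ 2 + ‖a v‖ ^ 2) * D) + D ^ 2 := by
        linear_combination D ^ 2 * hs
      rw [e]
      nlinarith
    refine (av_mono h1).trans ?_
    rw [av_add, av_sg_mul v _ (fun f => by rw [ps_flp hv]), av_add, av_add, av_mul, ps_two, av_const, ← hA]
    nlinarith [sq_nonneg (‖a v‖ ^ 2)]

/-- Paley-Zygmund. -/
theorem paley (a : ι → ℂ) :
    3 / 16 ≤ pr (fun f : ι → Bool => (∑ u, ‖a u‖ ^ 2) / 4 ≤ ‖∑ u, (sg f u : ℂ) * a u‖ ^ 2) := by
  classical
  set A := ∑ u, ‖a u‖ ^ 2 with hA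
  have hA0 : 0 ≤ A := Finset.sum_nonneg fun _ _ => by positivity
  rcases hA0.eq_or_lt with h0 | h0
  · have h1 : pr (fun f : ι → Bool => A / 4 ≤ ‖∑ u, (sg f u : ℂ) * a u‖ ^ 2) = 1 := by
      unfold pr
      have : ∀ f : ι → Bool, (if A / 4 ≤ ‖∑ u, (sg f u : ℂ) * a u‖ ^ 2 then (1 : ℝ) else 0) = 1 := fun f => by
        rw [if_pos (by rw [← h0]; simp)]
      rw [av_congr this, av_const]
    rw [h1]
    norm_num
  · set Z : (ι → Bool) → ℝ := fun f => ‖ps Finset.univ a f‖ ^ 2 with hZ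
    have h2 : av Z = A := ps_two Finset.univ a
    have h4 : av (fun f => Z f ^ 2) ≤ 3 * A ^ 2 := ps_four Finset.univ a
    set P := pr (fun f : ι → Bool => A / 4 ≤ Z f) with hP
    have hP0 : 0 ≤ P := pr_nonneg _
    have h5 : ∀ f, Z f ≤ A / 4 + Z f * (if A / 4 ≤ Z f then 1 else 0) := fun f => by
      by_cases h : A / 4 ≤ Z f
      · rw [if_pos h]
        linarith
      · rw [if_neg h]
        linarith [not_le.1 h]
    have h6 := av_mono h5
    rw [h2, av_add, av_const] at h6
    have h7 := av_cs Z (fun f => if A / 4 ≤ Z f then 1 else 0)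
    have h8 : av (fun f : ι → Bool => (if A / 4 ≤ Z f then (1 : ℝ) else 0) ^ 2) = P := by
      rw [hP]
      unfold pr
      refine av_congr fun f => ?_
      split_ifs <;> norm_num
    rw [h8] at h7
    set Q := av (fun f => Z f * (if A / 4 ≤ Z f then 1 else 0)) with hQ
    have hQ1 : 3 / 4 * A ≤ Q := by linarith
    have hQ2 : (3 / 4 * A) ^ 2 ≤ Q ^ 2 := pow_le_pow_left₀ (by positivity) hQ1 2
    have h9 : Q ^ 2 ≤ 3 * A ^ 2 * P := h7.trans (mul_le_mul_of_nonneg_right h4 hP0)
    have h10 : (3 / 4 * A) ^ 2 ≤ 3 * A ^ 2 * P := hQ2.trans h9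
    have h11 : 0 < A ^ 2 := by positivity
    change 3 / 16 ≤ P
    nlinarith

/-- Exponential moment. -/
theorem ps_exp (T : Finset ι) (c : ι → ℝ) :
    av (fun f : ι → Bool => Real.exp (∑ u ∈ T, sg f u * c u)) ≤ Real.exp ((∑ u ∈ T, c u ^ 2) / 2) := by
  classical
  induction T using Finset.induction_on with
  | empty => simp [av_const]
  | insert v T hv ih =>
    rw [Finset.sum_insert hv, add_div, Real.exp_add]
    have hfl : ∀ f : ι → Bool, ∑ u ∈ T, sg (flp v f) u * c u = ∑ u ∈ T, sg f u * c u := fun f =>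
      Finset.sum_congr rfl fun u hu => by rw [sg_flp_ne (ne_of_mem_of_not_mem hu hv)]
    have h1 : av (fun f : ι → Bool => Real.exp (∑ u ∈ insert v T, sg f u * c u)) =
        Real.cosh (c v) * av (fun f : ι → Bool => Real.exp (∑ u ∈ T, sg f u * c u)) := by
      have e1 := av_flp v (fun f : ι → Bool => Real.exp (∑ u ∈ insert v T, sg f u * c u))
      have e2 : av (fun f : ι → Bool => Real.exp (∑ u ∈ insert v T, sg f u * c u)) +
          av (fun f : ι → Bool => Real.exp (∑ u ∈ insert v T, sg f u * c u)) =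
          2 * (Real.cosh (c v) * av (fun f : ι → Bool => Real.exp (∑ u ∈ T, sg f u * c u))) := by
        nth_rewrite 1 [← e1]
        rw [← av_add, ← av_mul, ← av_mul]
        refine av_congr fun f => ?_
        simp only [Finset.sum_insert hv, hfl, sg_flp_self, Real.exp_add]
        have hc : 2 * (Real.cosh (c v) * Real.exp (∑ u ∈ T, sg f u * c u)) =
            (Real.exp (c v) + Real.exp (- c v)) * Real.exp (∑ u ∈ T, sg f u * c u) := by
          rw [Real.cosh_eq]
          ring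
        rw [hc]
        rcases sg_or f v with h | h
        · rw [h, neg_one_mul, one_mul]
          ring
        · rw [h, neg_neg, one_mul, neg_one_mul]
          ring
      linarith
    rw [h1]
    exact mul_le_mul (Real.cosh_le_exp_half_sq (c v)) ih (av_nonneg fun f => (Real.exp_pos _).le) (Real.exp_pos _).le

/-- Tail of a real sum with signs. -/
theorem tail_real (c : ι → ℝ) {t C : ℝ} (ht : 0 ≤ t) (hC : 0 < C) (hc : ∑ u, c u ^ 2 ≤ C) :
    pr (fun f : ι → Bool => t < ∑ u, sg f u * c u) ≤ Real.exp (-(t ^ 2 / (2 * C))) := by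
  classical
  set l := t / C with hl
  have hl0 : 0 ≤ l := div_nonneg ht hC.le
  have h1 : pr (fun f : ι → Bool => t < ∑ u, sg f u * c u) ≤
      pr (fun f : ι → Bool => Real.exp (l * t) ≤ Real.exp (∑ u, sg f u * (l * c u))) := by
    refine pr_mono fun f hf => ?_
    rw [Real.exp_le_exp]
    have : ∑ u, sg f u * (l * c u) = l * ∑ u, sg f u * c u := by
      rw [Finset.mul_sum]
      exact Finset.sum_congr rfl fun u _ => by ring
    rw [this]
    exact mul_le_mul_of_nonneg_left hf.le hl0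
  have h2 := markov (f := fun f : ι → Bool => Real.exp (∑ u, sg f u * (l * c u))) (fun f => (Real.exp_pos _).le)
    (Real.exp_pos (l * t))
  have h3 := ps_exp Finset.univ (fun u => l * c u)
  refine h1.trans (h2.trans ?_)
  rw [div_le_iff₀ (Real.exp_pos _), ← Real.exp_add]
  refine h3.trans ?_
  rw [Real.exp_le_exp]
  have h4 : ∑ u, (l * c u) ^ 2 = l ^ 2 * ∑ u, c u ^ 2 := by
    rw [Finset.mul_sum]
    exact Finset.sum_congr rfl fun u _ => by ring
  rw [h4]
  have h5 : l ^ 2 * ∑ u, c u ^ 2 ≤ l ^ 2 * C := mul_le_mul_of_nonneg_left hc (sq_nonneg _)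
  have h6 : l ^ 2 * C = t ^ 2 / C := by
    rw [hl]
    field_simp
  have h7 : l * t = t ^ 2 / C := by
    rw [hl]
    field_simp
  have h8 : t ^ 2 / (2 * C) = t ^ 2 / C / 2 := by
    rw [mul_comm, div_div]
  rw [h7, h8]
  linarith

/-- Tail of a complex sum with signs. -/
theorem tail_complex (k : ι → ℂ) {r : ℝ} (hr : 0 ≤ r) :
    pr (fun f : ι → Bool => r ^ 2 * ∑ u, ‖k u‖ ^ 2 < ‖∑ u, (sg f u : ℂ) * k u‖ ^ 2) ≤ 4 * Real.exp (-(r ^ 2 / 4)) := by
  classical
  set C := ∑ u, ‖k u‖ ^ 2 with hC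
  have hC0 : 0 ≤ C := Finset.sum_nonneg fun _ _ => by positivity
  rcases hC0.eq_or_lt with h0 | h0
  · have hk : ∀ u, k u = 0 := fun u => by
      have := (Finset.sum_eq_zero_iff_of_nonneg (fun (v : ι) _ => by positivity)).1 h0.symm u (Finset.mem_univ u)
      simpa using this
    have : pr (fun f : ι → Bool => r ^ 2 * C < ‖∑ u, (sg f u : ℂ) * k u‖ ^ 2) = 0 := by
      unfold pr
      have : ∀ f : ι → Bool, (if r ^ 2 * C < ‖∑ u, (sg f u : ℂ) * k u‖ ^ 2 then (1 : ℝ) else 0) = 0 := fun f => by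
        rw [if_neg]
        simp [hk, ← h0]
      rw [av_congr this, av_const]
    rw [this]
    positivity
  · set t := r * Real.sqrt (C / 2) with ht
    have ht0 : 0 ≤ t := by positivity
    have ht2 : t ^ 2 = r ^ 2 * C / 2 := by
      rw [ht, mul_pow, Real.sq_sqrt (by positivity)]
      ring
    have hre : ∑ u, (k u).re ^ 2 ≤ C := Finset.sum_le_sum fun u _ => by
      rw [← Complex.normSq_eq_norm_sq, Complex.normSq_apply]
      nlinarith [sq_nonneg (k u).im]
    have him : ∑ u, (k u).im ^ 2 ≤ C := Finset.sum_le_sum fun u _ => by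
      rw [← Complex.normSq_eq_norm_sq, Complex.normSq_apply]
      nlinarith [sq_nonneg (k u).re]
    have hre' : ∑ u, (-(k u).re) ^ 2 ≤ C := by simpa using hre
    have him' : ∑ u, (-(k u).im) ^ 2 ≤ C := by simpa using him
    have key : ∀ f : ι → Bool, r ^ 2 * C < ‖∑ u, (sg f u : ℂ) * k u‖ ^ 2 →
        ((t < ∑ u, sg f u * (k u).re ∨ t < ∑ u, sg f u * (-(k u).re)) ∨
          (t < ∑ u, sg f u * (k u).im ∨ t < ∑ u, sg f u * (-(k u).im))) := by
      intro f hf
      have er : (∑ u, (sg f u : ℂ) * k u).re = ∑ u, sg f u * (k u).re := by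
        rw [Complex.re_sum]
        exact Finset.sum_congr rfl fun u _ => by simp
      have ei : (∑ u, (sg f u : ℂ) * k u).im = ∑ u, sg f u * (k u).im := by
        rw [Complex.im_sum]
        exact Finset.sum_congr rfl fun u _ => by simp
      rw [← Complex.normSq_eq_norm_sq, Complex.normSq_apply, er, ei] at hf
      have hn : ∀ g : ι → ℝ, ∑ u, sg f u * (- g u) = - ∑ u, sg f u * g u := fun g => by
        rw [← Finset.sum_neg_distrib]
        exact Finset.sum_congr rfl fun u _ => by ring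
      rw [hn (fun u => (k u).re), hn (fun u => (k u).im)]
      by_contra hcon
      push Not at hcon
      obtain ⟨⟨h1, h2⟩, h3, h4⟩ := hcon
      have a1 : |∑ u, sg f u * (k u).re| ≤ t := abs_le.2 ⟨by linarith, h1⟩
      have a2 : |∑ u, sg f u * (k u).im| ≤ t := abs_le.2 ⟨by linarith, h3⟩
      have b1 := sq_le_sq' (by linarith [abs_nonneg (∑ u, sg f u * (k u).re)]) a1
      have b2 := sq_le_sq' (by linarith [abs_nonneg (∑ u, sg f u * (k u).im)]) a2
      rw [sq_abs] at b1 b2
      nlinarith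
    refine (pr_mono key).trans ?_
    refine (pr_or _ _).trans ?_
    have c1 := (pr_or (fun f : ι → Bool => t < ∑ u, sg f u * (k u).re) (fun f => t < ∑ u, sg f u * (-(k u).re)))
    have c2 := (pr_or (fun f : ι → Bool => t < ∑ u, sg f u * (k u).im) (fun f => t < ∑ u, sg f u * (-(k u).im)))
    have d1 := tail_real (fun u => (k u).re) ht0 h0 hre
    have d2 := tail_real (fun u => -(k u).re) ht0 h0 hre'
    have d3 := tail_real (fun u => (k u).im) ht0 h0 him
    have d4 := tail_real (fun u => -(k u).im) ht0 h0 him'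
    have e1 : t ^ 2 / (2 * C) = r ^ 2 / 4 := by
      rw [ht2]
      field_simp
      norm_num
    rw [e1] at d1 d2 d3 d4
    linarith

end signs

/-- Power mean: `∑ |x_u|^(2q) ≥ M^(1-q)` for a unit vector. -/
theorem pow_mean {M q : ℕ} (hq : 1 ≤ q) (x : Fin M → ℂ) (hx : nsq x = 1) :
    1 / (M : ℝ) ^ (q - 1) ≤ ∑ u, ‖x u ^ q‖ ^ 2 := by
  obtain ⟨n, rfl⟩ : ∃ n, q = n + 1 := ⟨q - 1, by omega⟩
  have h := pow_sum_div_card_le_sum_pow (s := (Finset.univ : Finset (Fin M))) (f := fun u => ‖x u‖ ^ 2)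
    (fun _ _ => by positivity) n
  have h1 : ∑ u, ‖x u‖ ^ 2 = 1 := hx
  rw [h1, one_pow, Finset.card_univ, Fintype.card_fin] at h
  have h2 : ∀ u, ‖x u ^ (n + 1)‖ ^ 2 = (‖x u‖ ^ 2) ^ (n + 1) := fun u => by
    rw [norm_pow]
    ring
  simp only [h2, Nat.add_sub_cancel]
  exact h

end ACpFrege
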