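import Pool.Agent.H65.AF.CDefs
import Pool.Agent.H88.AF.Av

/-!
helper14 (project MP_28250c_AF): two good Hermitian matrices which agree outside a few rows and columns have close top
eigenvectors (W1).
-/

set_option autoImplicit false
set_option linter.unusedSectionVars false

namespace ACpFrege

section two

variable {ι : Type} [Fintype ι] [DecidableEq ι]

/-- The form below the top eigenvalue, with gap. -/
theorem rayleigh_gap {H : Matrix ι ι ℂ} (hH : H.IsHermitian) (hc : 0 < Fintype.card ι) (y : ι → ℂ) :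
    (ip y (H.mulVec y)).re ≤ lam H 0 * ‖ip (xi H 0) y‖ ^ 2 + lam H 1 * (nsq y - ‖ip (xi H 0) y‖ ^ 2) := by
  obtain ⟨n, hn⟩ : ∃ n, Fintype.card ι = n + 1 := ⟨Fintype.card ι - 1, by omega⟩
  rw [form_re hH, nsq_expand hH, hn, Finset.sum_range_succ', Finset.sum_range_succ', add_sub_cancel_right, Finset.mul_sum,
    add_comm]
  refine add_le_add le_rfl (Finset.sum_le_sum fun j hj => ?_)
  have hj' := Finset.mem_range.1 hj
  exact mul_le_mul_of_nonneg_right (lam_anti hH (by omega) (by omega)) (by positivity)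

/-- The coordinates outside `T`. -/
def offT (T : Finset ι) (x : ι → ℂ) : ι → ℂ := fun u => if u ∈ T then 0 else x u

/-- The coordinates in `T`. -/
def onT (T : Finset ι) (x : ι → ℂ) : ι → ℂ := fun u => if u ∈ T then x u else 0

theorem off_eq (T : Finset ι) (x : ι → ℂ) : offT T x = x - onT T x := by
  funext u
  simp only [offT, onT, Pi.sub_apply]
  split_ifs <;> simp

theorem nsq_on (T : Finset ι) (x : ι → ℂ) : nsq (onT T x) = ∑ u ∈ T, ‖x u‖ ^ 2 := by
  unfold nsq onT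
  rw [← Finset.sum_subset (Finset.subset_univ T)]
  · exact Finset.sum_congr rfl fun u hu => by rw [if_pos hu]
  · intro u _ hu
    rw [if_neg hu]
    simp

theorem ip_on (T : Finset ι) (x y : ι → ℂ) : ip x (onT T y) = ip (onT T x) (onT T y) := by
  unfold ip onT
  refine Finset.sum_congr rfl fun u _ => ?_
  split_ifs <;> simp

theorem ip_on_self (T : Finset ι) (x : ι → ℂ) : ip (onT T x) x = (nsq (onT T x) : ℂ) := by
  rw [← ip_self]
  unfold ip onT
  refine Finset.sum_congr rfl fun u _ => ?_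
  split_ifs <;> simp

theorem nsq_off (T : Finset ι) (x : ι → ℂ) : nsq (offT T x) = nsq x - nsq (onT T x) := by
  rw [off_eq, nsq_sub, ip_on T x x, ip_self, Complex.ofReal_re]
  ring

theorem form_off_eq {H H' : Matrix ι ι ℂ} {T : Finset ι} (h : ∀ u v, u ∉ T → v ∉ T → H u v = H' u v) (x : ι → ℂ) :
    ip (offT T x) (H.mulVec (offT T x)) = ip (offT T x) (H'.mulVec (offT T x)) := by
  unfold ip Matrix.mulVec dotProduct offT
  refine Finset.sum_congr rfl fun u _ => ?_
  by_cases hu : u ∈ T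
  · simp [hu]
  · congr 1
    refine Finset.sum_congr rfl fun v _ => ?_
    by_cases hv : v ∈ T
    · simp [hv]
    · have := h u v hu hv
      change H u v * _ = H' u v * _
      rw [this]

theorem form_on_le {H : Matrix ι ι ℂ} {T : Finset ι} {B : ℝ} (hB : ∀ u v, ‖H u v‖ ≤ B) (x : ι → ℂ) :
    ‖ip (onT T x) (H.mulVec (onT T x))‖ ≤ B * T.card * nsq (onT T x) := by
  rcases isEmpty_or_nonempty ι with he | ⟨⟨u0⟩⟩
  · have h0 : onT T x = 0 := funext fun u => (he.false u).elim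
    rw [h0]
    simp [ip_zero_left, nsq_zero]
  · have hB0 : 0 ≤ B := (norm_nonneg _).trans (hB u0 u0)
    have h1 : ip (onT T x) (H.mulVec (onT T x)) = ∑ u ∈ T, ∑ v ∈ T, (starRingEnd ℂ) (x u) * (H u v * x v) := by
      unfold ip Matrix.mulVec dotProduct onT
      rw [← Finset.sum_subset (Finset.subset_univ T)]
      · refine Finset.sum_congr rfl fun u hu => ?_
        rw [if_pos hu, ← Finset.mul_sum]
        congr 1
        rw [← Finset.sum_subset (Finset.subset_univ T)]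
        · exact Finset.sum_congr rfl fun v hv => by rw [if_pos hv]
        · intro v _ hv
          rw [if_neg hv, mul_zero]
      · intro u _ hu
        rw [if_neg hu]
        simp
    rw [h1]
    have h2 : ‖∑ u ∈ T, ∑ v ∈ T, (starRingEnd ℂ) (x u) * (H u v * x v)‖ ≤ ∑ u ∈ T, ∑ v ∈ T, B * (‖x u‖ * ‖x v‖) := by
      refine (norm_sum_le _ _).trans (Finset.sum_le_sum fun u _ => ?_)
      refine (norm_sum_le _ _).trans (Finset.sum_le_sum fun v _ => ?_)
      rw [norm_mul, norm_mul, RCLike.norm_conj]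
      have := mul_le_mul_of_nonneg_right (hB u v) (mul_nonneg (norm_nonneg (x u)) (norm_nonneg (x v)))
      calc ‖x u‖ * (‖H u v‖ * ‖x v‖) = ‖H u v‖ * (‖x u‖ * ‖x v‖) := by ring
        _ ≤ _ := this
    have h3 : ∑ u ∈ T, ∑ v ∈ T, B * (‖x u‖ * ‖x v‖) = B * (∑ u ∈ T, ‖x u‖) ^ 2 := by
      rw [sq, Finset.sum_mul_sum, Finset.mul_sum]
      refine Finset.sum_congr rfl fun u _ => ?_
      rw [Finset.mul_sum]
    have h4 : (∑ u ∈ T, ‖x u‖) ^ 2 ≤ T.card * ∑ u ∈ T, ‖x u‖ ^ 2 := sq_sum_le_card_mul_sum_sq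
    rw [nsq_on]
    calc _ ≤ _ := h2
      _ = _ := h3
      _ ≤ B * (T.card * ∑ u ∈ T, ‖x u‖ ^ 2) := mul_le_mul_of_nonneg_left h4 hB0
      _ = _ := by ring

theorem form_off {H : Matrix ι ι ℂ} (hH : H.IsHermitian) {l : ℝ} {x : ι → ℂ} (hx : H.mulVec x = (l : ℂ) • x)
    (h1 : nsq x = 1) (T : Finset ι) :
    (ip (offT T x) (H.mulVec (offT T x))).re =
      l - 2 * l * nsq (onT T x) + (ip (onT T x) (H.mulVec (onT T x))).re := by
  rw [off_eq, Matrix.mulVec_sub, ip_sub_left, ip_sub_right, ip_sub_right, ip_herm hH x (onT T x), hx, ip_smul_right,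
    ip_smul_left, ip_smul_right, ip_self, h1, Complex.conj_ofReal, ip_on_self, ip_on T x x, ip_self]
  simp only [Complex.sub_re, Complex.mul_re, Complex.ofReal_re, Complex.ofReal_im, Complex.ofReal_one,
    mul_zero, sub_zero, mul_one]
  ring

end two

/-- The unit phase that aligns two vectors. -/
theorem align {ι : Type} [Fintype ι] {x y : ι → ℂ} (hx : nsq x = 1) (hy : nsq y = 1) :
    ∃ γ : ℂ, ‖γ‖ = 1 ∧ nsq (x - γ • y) = 2 - 2 * ‖ip y x‖ := by
  by_cases hz : ip y x = 0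
  · refine ⟨1, norm_one, ?_⟩
    rw [one_smul, nsq_sub, hx, hy, ip_re_comm, hz]
    simp
    norm_num
  · have hn : ‖ip y x‖ ≠ 0 := norm_ne_zero_iff.2 hz
    refine ⟨ip y x / (‖ip y x‖ : ℂ), ?_, ?_⟩
    · rw [norm_div, Complex.norm_real, norm_norm, div_self hn]
    · rw [nsq_sub, nsq_smul, hx, hy, norm_div, Complex.norm_real, norm_norm, div_self hn, ip_smul_right, ← ip_conj y x]
      have h1 : ip y x / (‖ip y x‖ : ℂ) * (starRingEnd ℂ) (ip y x) = (‖ip y x‖ : ℂ) := by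
        have hn' : (‖ip y x‖ : ℂ) ≠ 0 := by exact_mod_cast hn
        rw [div_mul_eq_mul_div, Complex.mul_conj', sq, mul_div_assoc, div_self hn', mul_one]
      rw [h1, Complex.ofReal_re]
      ring

/-- A top vector is a multiple of the first eigenvector if there is a gap. -/
theorem top_phase {M : ℕ} {H : Matrix (Fin M) (Fin M) ℂ} (hH : H.IsHermitian) (hM : 0 < M) (hgap : lam H 1 < lam H 0)
    {x : Fin M → ℂ} (h1 : nsq x = 1) (hx : H.mulVec x = (lam H 0 : ℂ) • x) :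
    ∃ c : ℂ, ‖c‖ = 1 ∧ x = c • xi H 0 := by
  have hc : 0 < Fintype.card (Fin M) := by rwa [Fintype.card_fin]
  have h2 := rayleigh_gap hH hc x
  rw [hx, ip_smul_right, ip_self, h1, Complex.ofReal_one, mul_one, Complex.ofReal_re] at h2
  have h3 := ip_cs (xi H 0) x
  rw [xi_nsq hH hc, h1, one_mul] at h3
  have h4 : ‖ip (xi H 0) x‖ ^ 2 = 1 := by
    refine le_antisymm h3 ?_
    by_contra hlt
    have hlt := not_le.1 hlt
    have : lam H 1 * (1 - ‖ip (xi H 0) x‖ ^ 2) < lam H 0 * (1 - ‖ip (xi H 0) x‖ ^ 2) :=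
      mul_lt_mul_of_pos_right hgap (by linarith)
    nlinarith
  refine ⟨ip (xi H 0) x, ?_, ?_⟩
  · have h5 : ‖ip (xi H 0) x‖ ^ 2 = 1 ^ 2 := by rw [h4, one_pow]
    exact (pow_left_inj₀ (norm_nonneg _) zero_le_one two_ne_zero).1 h5
  · have h6 : nsq (x - ip (xi H 0) x • xi H 0) = 0 := by
      rw [nsq_sub, nsq_smul, h4, xi_nsq hH hc, h1, ip_smul_right, ← ip_conj (xi H 0) x, Complex.mul_conj', ← Complex.ofReal_pow, h4]
      simp
      norm_num
    exact sub_eq_zero.1 (nsq_eq_zero.1 h6)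

theorem num_a {M L : ℕ} (hL : 2 ≤ L) (hM : L ^ 400 ≤ M) : 1000 * (L : ℝ) ^ 16 ≤ M := by
  have hl2 : (2 : ℝ) ≤ L := by exact_mod_cast hL
  have h1 : (1000 : ℝ) ≤ (L : ℝ) ^ 384 := by
    calc (1000 : ℝ) ≤ 2 ^ 10 := by norm_num
      _ ≤ (L : ℝ) ^ 10 := pow_le_pow_left₀ (by norm_num) hl2 _
      _ ≤ (L : ℝ) ^ 384 := pow_le_pow_right₀ (by linarith) (by norm_num)
  have h2 : (L : ℝ) ^ 400 ≤ M := by exact_mod_cast hM
  calc 1000 * (L : ℝ) ^ 16 ≤ (L : ℝ) ^ 384 * (L : ℝ) ^ 16 := by gcongr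
    _ = (L : ℝ) ^ 400 := by rw [← pow_add]
    _ ≤ M := h2

theorem num_b {M L : ℕ} (hM : 0 < M) (hML : M < (L + 1) ^ 400) : Real.log M ≤ 400 * Real.log ((L : ℝ) + 1) := by
  have h1 : (M : ℝ) ≤ ((L : ℝ) + 1) ^ 400 := by exact_mod_cast hML.le
  have hM0 : (0 : ℝ) < M := by exact_mod_cast hM
  have := Real.log_le_log hM0 h1
  rwa [Real.log_pow, Nat.cast_ofNat] at this

theorem num_log (L : ℕ) : Real.log ((L : ℝ) + 1) ≤ L := by
  have := Real.log_le_sub_one_of_pos (x := (L : ℝ) + 1) (by positivity)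
  linarith

theorem num_c {M L : ℕ} (hM : 0 < M) (hML : M < (L + 1) ^ 400) : 1000 * Real.log M ≤ 400000 * L := by
  have h1 := num_b hM hML
  clear hML
  have h3 := num_log L
  linarith

theorem two_core {M L : ℕ} (hL : 2 ≤ L) (hm16 : 1000 * (L : ℝ) ^ 16 ≤ M) (hlog : 1000 * Real.log M ≤ 400000 * L) {θ : ℝ}
    (h0 : 1.98 * Real.sqrt M ≤ θ)
    (hθ : θ ≤ 2.1 * Real.sqrt M) {H H' : Matrix (Fin M) (Fin M) ℂ} (hH : H.IsHermitian) (hH' : H'.IsHermitian)
    (hG : GoodH L θ H) (hG' : GoodH L θ H') {T : Finset (Fin M)} (hT : T.card ≤ L)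
    (heq : ∀ u v, u ∉ T → v ∉ T → H u v = H' u v) :
    1 - ‖ip (xi H' 0) (xi H 0)‖ ≤ 2000000 / (L : ℝ) ^ 13 := by
  -- numbers
  set l : ℝ := (L : ℝ) with hl
  set m : ℝ := (M : ℝ) with hm
  set s : ℝ := Real.sqrt m with hs
  have hl2 : 2 ≤ l := by rw [hl]; exact_mod_cast hL
  have hl0 : 0 < l := by linarith
  have hl16 : 0 < l ^ 16 := by positivity
  have hm0 : 0 < m := by linarith
  have hs0 : 0 < s := Real.sqrt_pos.2 hm0
  have hss : s * s = m := Real.mul_self_sqrt hm0.le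
  have hc : 0 < Fintype.card (Fin M) := by
    rw [Fintype.card_fin]
    have : (0 : ℝ) < M := hm0
    exact_mod_cast this
  obtain ⟨⟨hb1, hb2, hb3, _⟩, hd, he⟩ := hG
  obtain ⟨⟨hb1', hb2', hb3', _⟩, hd', he'⟩ := hG'
  have hg : gg M L = l ^ 16 / s := rfl
  rw [hg] at hb1 hb2 hb3 hb1' hb2' hb3'
  set g := l ^ 16 / s with hgdef
  have hg0 : 0 < g := by positivity
  have hgs : g * s = l ^ 16 := by
    rw [hgdef]
    field_simp
  set x := xi H 0 with hx
  set x' := xi H' 0 with hx'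
  have hx1 : nsq x = 1 := xi_nsq hH hc
  have hx1' : nsq x' = 1 := xi_nsq hH' hc
  have hxe : H.mulVec x = (lam H 0 : ℂ) • x := xi_eig hH hc
  have hxe' : H'.mulVec x' = (lam H' 0 : ℂ) • x' := xi_eig hH' hc
  -- mass on T
  set τ : ℝ := 400000 * l ^ 2 / m with hτ
  have hτ0 : 0 ≤ τ := by positivity
  have hmass : ∀ z : Fin M → ℂ, (∀ u, ‖z u‖ ^ 2 ≤ 1000 * Real.log m / m) → nsq (onT T z) ≤ τ := by
    intro z hz
    rw [nsq_on]
    calc ∑ u ∈ T, ‖z u‖ ^ 2 ≤ ∑ _u ∈ T, 400000 * l / m := Finset.sum_le_sum fun u _ => (hz u).trans (by gcongr)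
      _ = T.card * (400000 * l / m) := by rw [Finset.sum_const, nsmul_eq_mul]
      _ ≤ l * (400000 * l / m) := by
        have : (T.card : ℝ) ≤ l := by rw [hl]; exact_mod_cast hT
        gcongr
      _ = τ := by rw [hτ]; ring
  have ht := hmass x hd
  have ht' := hmass x' hd'
  have ht0 : 0 ≤ nsq (onT T x) := nsq_nonneg _
  have ht0' : 0 ≤ nsq (onT T x') := nsq_nonneg _
  -- size of eigenvalues
  have hgle : g ≤ s / 1000 := by
    have : g * s ≤ s / 1000 * s := by
      rw [hgs, div_mul_eq_mul_div, hss]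
      linarith
    exact le_of_mul_le_mul_right this hs0
  have hlam : lam H 0 ≤ 2.2 * s := by linarith
  have hlam' : lam H' 0 ≤ 2.2 * s := by linarith
  have hlam0 : 0 ≤ lam H 0 := by
    have : 0 ≤ 1.98 * s := by positivity
    linarith
  have hlam0' : 0 ≤ lam H' 0 := by
    have : 0 ≤ 1.98 * s := by positivity
    linarith
  have hl2s : l ^ 2 ≤ 0.6 * s := by
    have h1 : (l ^ 2) ^ 2 ≤ (0.6 * s) ^ 2 := by
      have h4 : (l ^ 2) ^ 2 ≤ l ^ 16 := by
        rw [← pow_mul]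
        exact pow_le_pow_right₀ (by linarith) (by norm_num)
      nlinarith
    exact (abs_le_of_sq_le_sq' h1 (by positivity)).2
  -- lower bound of the form off T
  have hlow : ∀ (K : Matrix (Fin M) (Fin M) ℂ) (z : Fin M → ℂ) (lm : ℝ), K.IsHermitian → K.mulVec z = (lm : ℂ) • z →
      nsq z = 1 → (∀ u v, ‖K u v‖ ≤ l) → lm ≤ 2.2 * s → 0 ≤ lm → nsq (onT T z) ≤ τ →
      lm - 5 * s * τ ≤ (ip (offT T z) (K.mulVec (offT T z))).re := by
    intro K z lm hK hz hz1 hKe hlm hlm0 hzt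
    rw [form_off hK hz hz1]
    have h1 := form_on_le (T := T) hKe z
    have h2 := (Complex.abs_re_le_norm _).trans h1
    have h3 := (abs_le.1 h2).1
    have h4 : l * T.card * nsq (onT T z) ≤ l ^ 2 * nsq (onT T z) := by
      have : (T.card : ℝ) ≤ l := by rw [hl]; exact_mod_cast hT
      have h5 : l * T.card ≤ l ^ 2 := by rw [sq]; gcongr
      exact mul_le_mul_of_nonneg_right h5 (nsq_nonneg _)
    have h6 : (2 * lm + l ^ 2) * nsq (onT T z) ≤ (5 * s) * τ := by
      have h7 : 2 * lm + l ^ 2 ≤ 5 * s := by linarith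
      exact mul_le_mul h7 hzt (nsq_nonneg _) (by positivity)
    linarith
  have hA := hlow H x (lam H 0) hH hxe hx1 he hlam hlam0 ht
  have hA' := hlow H' x' (lam H' 0) hH' hxe' hx1' he' hlam' hlam0' ht'
  rw [form_off_eq heq] at hA
  rw [← form_off_eq heq] at hA'
  -- comparison of the eigenvalues
  have hoff : ∀ z : Fin M → ℂ, nsq z = 1 → nsq (offT T z) ≤ 1 := by
    intro z hz
    rw [nsq_off, hz]
    linarith [nsq_nonneg (onT T z)]
  have hcmp : lam H 0 ≥ lam H' 0 - 5 * s * τ := by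
    have h1 := rayleigh hH (offT T x')
    have h2 : lam H 0 * nsq (offT T x') ≤ lam H 0 * 1 := mul_le_mul_of_nonneg_left (hoff x' hx1') hlam0
    linarith
  set y := offT T x with hy
  have hy1 : nsq y ≤ 1 := hoff x hx1
  have hgap := rayleigh_gap hH' hc y
  rw [← hx'] at hgap
  set A := ‖ip x' y‖ ^ 2 with hAdef
  have hAy : A ≤ nsq y := by
    have := ip_cs x' y
    rw [hx1', one_mul] at this
    exact this
  have h6g : 6 * g * (nsq y - A) ≤ 10 * s * τ := by
    have h1 : lam H' 1 ≤ lam H' 0 - 6 * g := by linarith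
    have h2 : lam H' 1 * (nsq y - A) ≤ (lam H' 0 - 6 * g) * (nsq y - A) :=
      mul_le_mul_of_nonneg_right h1 (by linarith)
    have h3 : lam H' 0 * nsq y ≤ lam H' 0 * 1 := mul_le_mul_of_nonneg_left hy1 hlam0'
    linarith
  have hb : nsq y - A ≤ 700000 / l ^ 13 := by
    have h1 : 10 * s * τ ≤ 6 * g * (700000 / l ^ 13) := by
      have e1 : 10 * s * τ * (s * l ^ 13) = 4000000 * l ^ 15 := by
        rw [hτ, ← hss]
        field_simp
        norm_num
      have e2 : 6 * g * (700000 / l ^ 13) * (s * l ^ 13) = 4200000 * l ^ 16 := by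
        rw [← hgs]
        field_simp
        norm_num
      have e3 : l ^ 15 ≤ l ^ 16 := pow_le_pow_right₀ (by linarith) (by norm_num)
      have e4 : 10 * s * τ * (s * l ^ 13) ≤ 6 * g * (700000 / l ^ 13) * (s * l ^ 13) := by
        rw [e1, e2]
        have : 0 < l ^ 16 := hl16
        linarith
      exact le_of_mul_le_mul_right e4 (by positivity)
    exact le_of_mul_le_mul_left (h6g.trans h1) (by positivity)
  have hyl : 1 - τ ≤ nsq y := by
    rw [hy, nsq_off, hx1]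
    linarith
  set e := τ + 700000 / l ^ 13 with hedef
  have hAe : 1 - e ≤ A := by rw [hedef]; linarith
  have hn1 : 1 - e ≤ ‖ip x' y‖ := by
    have h1 : ‖ip x' y‖ ≤ 1 := by
      have : ‖ip x' y‖ ^ 2 ≤ 1 ^ 2 := by
        rw [one_pow]
        exact hAy.trans hy1
      exact (abs_le_of_sq_le_sq' this zero_le_one).2
    have h2 : A ≤ ‖ip x' y‖ := by
      rw [hAdef, sq]
      exact mul_le_of_le_one_left (norm_nonneg _) h1
    linarith
  have hn2 : ‖ip x' (onT T x)‖ ≤ τ := by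
    have h1 : ‖ip x' (onT T x)‖ ^ 2 ≤ τ ^ 2 := by
      rw [ip_on]
      calc _ ≤ nsq (onT T x') * nsq (onT T x) := ip_cs _ _
        _ ≤ τ * τ := mul_le_mul ht' ht ht0 hτ0
        _ = τ ^ 2 := (sq τ).symm
    exact (abs_le_of_sq_le_sq' h1 hτ0).2
  have hxy : ip x' x = ip x' y + ip x' (onT T x) := by
    rw [← ip_add_right, hy, off_eq]
    congr 1
    funext u
    simp
  have hn3 : 1 - e - τ ≤ ‖ip x' x‖ := by
    rw [hxy]
    have := norm_sub_le_norm_add (ip x' y) (ip x' (onT T x))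
    linarith
  have hτl : 2 * τ ≤ 800000 / l ^ 13 := by
    rw [hτ, le_div_iff₀ (by positivity)]
    have : 2 * (400000 * l ^ 2 / m) * l ^ 13 = 800000 * (l ^ 15 / m) := by ring
    rw [this]
    have h1 : l ^ 15 / m ≤ 1 := by
      rw [div_le_one hm0]
      have : l ^ 15 ≤ l ^ 16 := pow_le_pow_right₀ (by linarith) (by norm_num)
      linarith
    linarith
  have hpos : 0 < 1 / l ^ 13 := by positivity
  have h200 : 2000000 / l ^ 13 = 2000000 * (1 / l ^ 13) := by ring
  have h70 : 700000 / l ^ 13 = 700000 * (1 / l ^ 13) := by ring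
  have h80 : 800000 / l ^ 13 = 800000 * (1 / l ^ 13) := by ring
  rw [h200]
  rw [hedef, h70] at hn3
  rw [h80] at hτl
  linarith

/-- W1: two good matrices which agree outside a few rows and columns have close top eigenvectors. -/
theorem two_close {M L : ℕ} (hL : 2 ≤ L) (hM : L ^ 400 ≤ M) (hML : M < (L + 1) ^ 400) {θ : ℝ}
    (h0 : 1.98 * Real.sqrt M ≤ θ) (hθ : θ ≤ 2.1 * Real.sqrt M) {H H' : Matrix (Fin M) (Fin M) ℂ} (hH : H.IsHermitian)
    (hH' : H'.IsHermitian) (hG : GoodH L θ H) (hG' : GoodH L θ H') {T : Finset (Fin M)} (hT : T.card ≤ L)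
    (heq : ∀ u v, u ∉ T → v ∉ T → H u v = H' u v) :
    1 - ‖ip (xi H' 0) (xi H 0)‖ ≤ 2000000 / (L : ℝ) ^ 13 :=
  two_core hL (num_a hL hM) (num_c (lt_of_lt_of_le (by positivity) hM) hML) h0 hθ hH hH' hG hG' hT heq

end ACpFrege
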