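import Pool.Agent.H87.AF.WtDefs
import Pool.Agent.H14.AF.Two

/-!
helper14 (project MP_28250c_AF): W1.
-/

set_option autoImplicit false

namespace ACpFrege

theorem good_gap {M L : ℕ} (hM : 0 < M) (hL : 0 < L) {θ : ℝ} {H : Matrix (Fin M) (Fin M) ℂ} (hG : GoodH L θ H) :
    lam H 1 < lam H 0 := by
  obtain ⟨⟨h1, _, h3, _⟩, _⟩ := hG
  have hg : 0 < gg M L := by
    unfold gg
    have h4 : (0 : ℝ) < L := by exact_mod_cast hL
    have h5 : (0 : ℝ) < M := by exact_mod_cast hM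
    have h6 := Real.sqrt_pos.2 h5
    positivity
  linarith

theorem tv_xi {M : ℕ} (hM : 0 < M) {H : Matrix (Fin M) (Fin M) ℂ} (hH : H.IsHermitian) (hgap : lam H 1 < lam H 0)
    {x : Fin M → ℂ} (hx : TV H x) : ∃ c : ℂ, ‖c‖ = 1 ∧ x = c • xi H 0 :=
  top_phase hH hM hgap hx.1 hx.2

theorem pos_of_pow {M L : ℕ} (hL : 1 ≤ L) (h : L ^ 400 ≤ M) : 0 < M := lt_of_lt_of_le (Nat.pow_pos hL) h

theorem stW1 : StW1 := by
  refine ⟨2000000, ?_⟩
  intro M L θ H H' T x x' hL hM hML h0 hθ hH hH' hT heq hG hG' hx hx'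
  have hM0 : 0 < M := pos_of_pow hL hM
  obtain ⟨c, hc, rfl⟩ := tv_xi hM0 hH (good_gap hM0 hL hG) hx
  obtain ⟨c', hc', rfl⟩ := tv_xi hM0 hH' (good_gap hM0 hL hG') hx'
  have h1 : ‖ip (c • xi H 0) (c' • xi H' 0)‖ = ‖ip (xi H' 0) (xi H 0)‖ := by
    rw [ip_smul_left, ip_smul_right, norm_mul, norm_mul, RCLike.norm_conj, hc, hc', one_mul, one_mul, ← ip_conj (xi H' 0),
      RCLike.norm_conj]
  rw [h1]
  rcases Nat.lt_or_ge L 2 with h2 | h2
  · have h3 : L = 1 := by omega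
    rw [h3]
    have := norm_nonneg (ip (xi H' 0) (xi H 0))
    norm_num
    linarith
  · exact two_close h2 hM hML h0 hθ hH hH' hG hG' hT (fun u v hu hv => heq u hu v hv)

end ACpFrege
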