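import Pool.Agent.H14.AF.W1
import Pool.Agent.H14.AF.Psi
import Pool.Agent.H34.AF.Mask

/-!
helper14 (project MP_28250c_AF): W2, the phase conditions over random signs.
-/

set_option autoImplicit false

namespace ACpFrege


theorem pr_zero {Ω : Type} [Fintype Ω] {A : Ω → Prop} (h : ∀ x, ¬ A x) : pr A = 0 := by
  classical
  unfold pr av
  simp [h]

theorem asy_neg {M q : ℕ} {a : Fin M → Fin M → ZMod q} (ha : Asy a) (u v : Fin M) : a v u = - a u v := by
  obtain ⟨c, rfl⟩ := ha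
  unfold anti
  rcases lt_trichotomy u v with h | h | h
  · rw [if_neg (not_lt.2 h.le), if_pos h, if_pos h]
  · subst h
    simp
  · rw [if_pos h, if_neg (not_lt.2 h.le), if_pos h, neg_neg]

/-- Every list of at most `R` moves has the same total as a list of exactly `R` moves. -/
theorem pad {M q R : ℕ} (hM : 0 < M) (s : List (Vr M × ZMod q)) (hs : s.length ≤ R) :
    ∃ v : List.Vector (Vr M × ZMod q) R, tot v.toList = tot s := by
  let d : Vr M × ZMod q := (Sum.inl (⟨0, hM⟩, ⟨0, hM⟩), 0)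
  refine ⟨⟨s ++ List.replicate (R - s.length) d, by simp; omega⟩, ?_⟩
  change tot (s ++ List.replicate (R - s.length) d) = tot s
  unfold tot
  rw [List.map_append, List.sum_append, List.map_replicate, List.sum_replicate]
  simp [d]

theorem nsq_phase {ι : Type} [Fintype ι] {x y : ι → ℂ} (hx : nsq x = 1) (hy : nsq y = 1) {γ : ℂ} (hγ : ‖γ‖ = 1)
    (h : γ * ip x y = (‖ip x y‖ : ℂ)) : nsq (x - γ • y) = 2 * (1 - ‖ip x y‖) := by
  rw [nsq_sub, nsq_smul, hγ, hx, hy, ip_smul_right, h, Complex.ofReal_re]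
  ring

/-- Numerics for W2. -/
theorem num_w2 (q : ℕ) {δ : ℝ} (hδ : 0 < δ) : ∃ L₀ : ℕ, ∀ L : ℕ, L₀ ≤ L → 2 ≤ L ∧ (2000000 : ℝ) / (L : ℝ) ^ 13 < 1 ∧
    (L : ℝ) ^ 2 * ((2 * q + 1) ^ 2 * (2 * (2000000 / (L : ℝ) ^ 13))) ≤ δ ^ 2 ∧
    64 * Real.exp (1200 * L * Real.log ((L : ℝ) + 1)) ≤ Real.exp ((L : ℝ) ^ 2 / 4) := by
  obtain ⟨K, hK⟩ := exists_nat_gt ((2 * (q : ℝ) + 1) ^ 2 * 4000000 / δ ^ 2)
  refine ⟨K + 200000000, fun L hL => ?_⟩
  have hL1 : (K : ℝ) + 200000000 ≤ L := by exact_mod_cast hL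
  have hK0 : (0 : ℝ) ≤ K := Nat.cast_nonneg K
  have hL2 : (200000000 : ℝ) ≤ L := by linarith
  have hL0 : (0 : ℝ) < L := by linarith
  have hL1' : (1 : ℝ) ≤ L := by linarith
  have h13 : (L : ℝ) ≤ (L : ℝ) ^ 13 := by
    calc (L : ℝ) = (L : ℝ) ^ 1 := (pow_one _).symm
      _ ≤ (L : ℝ) ^ 13 := pow_le_pow_right₀ hL1' (by norm_num)
  refine ⟨by omega, ?_, ?_, ?_⟩
  · rw [div_lt_one (by positivity)]
    linarith
  · have e : (L : ℝ) ^ 2 * ((2 * (q : ℝ) + 1) ^ 2 * (2 * (2000000 / (L : ℝ) ^ 13))) =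
        (2 * (q : ℝ) + 1) ^ 2 * 4000000 / (L : ℝ) ^ 11 := by
      field_simp
      ring
    rw [e, div_le_iff₀ (by positivity)]
    have h1 : (2 * (q : ℝ) + 1) ^ 2 * 4000000 < K * δ ^ 2 := (div_lt_iff₀ (by positivity)).1 hK
    have h2 : (L : ℝ) ≤ (L : ℝ) ^ 11 := by
      calc (L : ℝ) = (L : ℝ) ^ 1 := (pow_one _).symm
        _ ≤ (L : ℝ) ^ 11 := pow_le_pow_right₀ hL1' (by norm_num)
    have h3 : (K : ℝ) ≤ (L : ℝ) ^ 11 := by linarith
    have h4 : (K : ℝ) * δ ^ 2 ≤ (L : ℝ) ^ 11 * δ ^ 2 := mul_le_mul_of_nonneg_right h3 (by positivity)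
    linarith
  · set y := Real.sqrt ((L : ℝ) + 1) with hy
    have hy2 : y ^ 2 = L + 1 := Real.sq_sqrt (by linarith)
    have hy0 : 0 ≤ y := Real.sqrt_nonneg _
    have hy1 : 10000 ≤ y := Real.le_sqrt_of_sq_le (by linarith)
    have hlog : Real.log ((L : ℝ) + 1) ≤ 2 * y := by
      rw [← hy2, Real.log_pow]
      have := Real.log_le_sub_one_of_pos (x := y) (by linarith)
      push_cast
      linarith
    have h64 : (64 : ℝ) ≤ Real.exp 64 := by
      have := Real.add_one_le_exp (64 : ℝ)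
      linarith
    calc 64 * Real.exp (1200 * L * Real.log ((L : ℝ) + 1))
        ≤ Real.exp 64 * Real.exp (1200 * L * Real.log ((L : ℝ) + 1)) :=
          mul_le_mul_of_nonneg_right h64 (Real.exp_pos _).le
      _ = Real.exp (64 + 1200 * L * Real.log ((L : ℝ) + 1)) := (Real.exp_add _ _).symm
      _ ≤ Real.exp ((L : ℝ) ^ 2 / 4) := by
        rw [Real.exp_le_exp]
        have h1 : 1200 * (L : ℝ) * Real.log ((L : ℝ) + 1) ≤ 1200 * (L : ℝ) * (2 * y) :=
          mul_le_mul_of_nonneg_left hlog (by positivity)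
        have h2 : 9600 * y + 4 ≤ L := by
          have : (9600 * y + 4) ≤ y ^ 2 - 1 := by nlinarith
          linarith
        have h3 : (L : ℝ) * (9600 * y + 4) ≤ L * L := mul_le_mul_of_nonneg_left h2 hL0.le
        nlinarith

theorem card_moves {M q R L : ℕ} [NeZero q] (hM : 3 * q ≤ M) (hM0 : 0 < M) (hRL : R ≤ L) (hML : M < (L + 1) ^ 400) :
    (Fintype.card (List.Vector (Vr M × ZMod q) R) : ℝ) ≤ Real.exp (1200 * L * Real.log ((L : ℝ) + 1)) := by
  have h1 : Fintype.card (List.Vector (Vr M × ZMod q) R) = ((M * M + M * (M + 1)) * q) ^ R := by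
    rw [card_vector, Fintype.card_prod, Fintype.card_sum, Fintype.card_prod, Fintype.card_prod, Fintype.card_fin,
      Fintype.card_fin, ZMod.card]
  have h2 : (M * M + M * (M + 1)) * q ≤ M ^ 3 := by
    have h3 : M * M + M * (M + 1) ≤ 3 * (M * M) := by nlinarith
    calc (M * M + M * (M + 1)) * q ≤ 3 * (M * M) * q := Nat.mul_le_mul_right _ h3
      _ = M * M * (3 * q) := by ring
      _ ≤ M * M * M := Nat.mul_le_mul_left _ hM
      _ = M ^ 3 := by ring
  have h4 : Fintype.card (List.Vector (Vr M × ZMod q) R) ≤ (M ^ 3) ^ L := by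
    rw [h1]
    exact (Nat.pow_le_pow_left h2 R).trans (Nat.pow_le_pow_right (Nat.pow_pos hM0) hRL)
  have h5 := num_b hM0 hML
  clear hML
  have hMr : (0 : ℝ) < M := by exact_mod_cast hM0
  calc (Fintype.card (List.Vector (Vr M × ZMod q) R) : ℝ) ≤ (((M ^ 3) ^ L : ℕ) : ℝ) := by exact_mod_cast h4
    _ = Real.exp (3 * L * Real.log M) := by
      rw [← pow_mul, Nat.cast_pow, ← Real.exp_log (pow_pos hMr (3 * L)), Real.log_pow]
      push_cast
      ring_nf
    _ ≤ Real.exp (1200 * L * Real.log ((L : ℝ) + 1)) := by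
      rw [Real.exp_le_exp]
      have : (3 : ℝ) * L * Real.log M ≤ 3 * L * (400 * Real.log ((L : ℝ) + 1)) :=
        mul_le_mul_of_nonneg_left h5 (by positivity)
      linarith

/-- The phase that aligns the second vector with the first one. -/
noncomputable def alg {ι : Type} [Fintype ι] (x y : ι → ℂ) : ℂ := (‖ip x y‖ : ℂ) / ip x y

theorem alg_norm {ι : Type} [Fintype ι] {x y : ι → ℂ} (h : ip x y ≠ 0) : ‖alg x y‖ = 1 := by
  unfold alg
  rw [norm_div, Complex.norm_real, norm_norm, div_self (norm_ne_zero_iff.2 h)]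

theorem alg_mul {ι : Type} [Fintype ι] {x y : ι → ℂ} (h : ip x y ≠ 0) : alg x y * ip x y = (‖ip x y‖ : ℂ) := by
  unfold alg
  rw [div_mul_cancel₀ _ h]

/-- The bad event for one mask has small probability. -/
theorem bad_le {M q R L : ℕ} [NeZero q] (hq : 1 ≤ q) {δ : ℝ} (hδ : 0 < δ) (hL2 : 2 ≤ L) (hlt : (2000000 : ℝ) / (L : ℝ) ^ 13 < 1)
    (hd : (L : ℝ) ^ 2 * ((2 * q + 1) ^ 2 * (2 * (2000000 / (L : ℝ) ^ 13))) ≤ δ ^ 2) (hLM : L ^ 400 ≤ M)
    (hML : M < (L + 1) ^ 400) (hRL : R ≤ L) {θ : ℝ} (h0 : 1.98 * Real.sqrt M ≤ θ) (hθ : θ ≤ 2.1 * Real.sqrt M)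
    {w : Matrix (Fin M) (Fin M) ℂ} (hw : w.IsHermitian) {a : Fin M → Fin M → ZMod q} (ha : ∀ u v, a v u = - a u v)
    (hG : GoodH L θ (msk a w)) (s : List (Vr M × ZMod q)) (hs : s.length ≤ R) (hG' : GoodH L θ (msk (a + tot s) w)) :
    ip (xi (msk a w) 0) (xi (msk (a + tot s) w) 0) ≠ 0 ∧
    pr (fun f : Fin M → Bool => δ < ‖Phi q (sg f) (xi (msk a w) 0) - Phi q (sg f)
      (alg (xi (msk a w) 0) (xi (msk (a + tot s) w) 0) • xi (msk (a + tot s) w) 0)‖) ≤ 4 * Real.exp (-((L : ℝ) ^ 2 / 4)) := by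
  have hH : (msk a w).IsHermitian := msk_herm hw ha
  have hH' : (msk (a + tot s) w).IsHermitian := msk_herm hw (fun u v => by
    rw [Pi.add_apply, Pi.add_apply, Pi.add_apply, Pi.add_apply, ha, tot_neg s u v, neg_add])
  obtain ⟨T, hT, hT'⟩ := tot_T s
  have hclose := two_close hL2 hLM hML h0 hθ hH hH' hG hG' (T := T) (by omega)
    (fun u v hu hv => (msk_congr (hT' u hu v hv)).symm)
  have hM0 : 0 < M := pos_of_pow (by omega) hLM
  clear hML
  have hc : 0 < Fintype.card (Fin M) := by rwa [Fintype.card_fin]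
  set ξ := xi (msk a w) 0 with hξ
  set ξ' := xi (msk (a + tot s) w) 0 with hξ'
  have hn : ‖ip ξ' ξ‖ = ‖ip ξ ξ'‖ := by rw [← ip_conj ξ' ξ, RCLike.norm_conj]
  rw [hn] at hclose
  have hz : ip ξ ξ' ≠ 0 := by
    intro h
    rw [h, norm_zero, sub_zero] at hclose
    linarith
  refine ⟨hz, ?_⟩
  have h1 : nsq (ξ - alg ξ ξ' • ξ') = 2 * (1 - ‖ip ξ ξ'‖) :=
    nsq_phase (xi_nsq hH hc) (xi_nsq hH' hc) (alg_norm hz) (alg_mul hz)
  have h2 : ∑ u, ‖psi q (ξ u) - psi q ((alg ξ ξ' • ξ') u)‖ ^ 2 ≤ (2 * q + 1) ^ 2 * (2 * (2000000 / (L : ℝ) ^ 13)) := by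
    refine (psi_kappa hq ξ (alg ξ ξ' • ξ')).trans ?_
    rw [h1]
    have : 2 * (1 - ‖ip ξ ξ'‖) ≤ 2 * (2000000 / (L : ℝ) ^ 13) := by linarith
    exact mul_le_mul_of_nonneg_left this (by positivity)
  refine (pr_mono fun f hf => ?_).trans (tail_complex (fun u => psi q (ξ u) - psi q ((alg ξ ξ' • ξ') u))
    (r := (L : ℝ)) (Nat.cast_nonneg L))
  have e : Phi q (sg f) ξ - Phi q (sg f) (alg ξ ξ' • ξ') =
      ∑ u, (sg f u : ℂ) * (psi q (ξ u) - psi q ((alg ξ ξ' • ξ') u)) := by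
    unfold Phi
    rw [← Finset.sum_sub_distrib]
    exact Finset.sum_congr rfl fun u _ => by ring
  rw [e] at hf
  calc (L : ℝ) ^ 2 * ∑ u, ‖psi q (ξ u) - psi q ((alg ξ ξ' • ξ') u)‖ ^ 2
      ≤ (L : ℝ) ^ 2 * ((2 * q + 1) ^ 2 * (2 * (2000000 / (L : ℝ) ^ 13))) := mul_le_mul_of_nonneg_left h2 (by positivity)
    _ ≤ δ ^ 2 := hd
    _ < _ := pow_lt_pow_left₀ hf hδ.le two_ne_zero

theorem stW2 : StW2 := by
  classical
  intro q hq _ δ hδ
  obtain ⟨L₀, hL₀⟩ := num_w2 q hδ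
  refine ⟨(L₀ + 1) ^ 400 + (3 * q + 3), ?_⟩
  intro M hM R L hLM hML hRL θ h0 hθ w hw a ha hG
  have hMK : (L₀ + 1) ^ 400 ≤ M := le_trans (Nat.le_add_right _ _) hM
  have hMq : 3 * q + 3 ≤ M := le_trans (Nat.le_add_left _ _) hM
  clear hM
  have hLL : L₀ ≤ L := by
    have h1 : (L₀ + 1) ^ 400 < (L + 1) ^ 400 := lt_of_le_of_lt hMK hML
    have h2 := lt_of_pow_lt_pow_left₀ 400 (Nat.zero_le _) h1
    clear hML hMK hLM h1
    omega
  clear hMK
  obtain ⟨hL2, hlt, hd, hexp⟩ := hL₀ L hLL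
  have hM0 : 0 < M := by clear hML hLM; omega
  have hcard := card_moves (R := R) (L := L) (q := q) (by clear hML hLM; omega) hM0 hRL hML
  have hneg := asy_neg ha
  have hH : (msk a w).IsHermitian := msk_herm hw hneg
  have hc : 0 < Fintype.card (Fin M) := by rwa [Fintype.card_fin]
  have hbad := fun s hs hG' => bad_le (R := R) (s := s) (by clear hML hLM; omega) hδ hL2 hlt hd hLM hML hRL h0 hθ hw hneg hG hs hG'
  have hgapH := good_gap hM0 (by clear hML hLM; omega) hG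
  have hgap' : ∀ s : List (Vr M × ZMod q), GoodH L θ (msk (a + tot s) w) →
      lam (msk (a + tot s) w) 1 < lam (msk (a + tot s) w) 0 := fun s h => good_gap hM0 (by clear hML hLM; omega) h
  clear hML hLM
  set ξ := xi (msk a w) 0 with hξ
  have hξ1 : nsq ξ = 1 := xi_nsq hH hc
  -- the events
  have e1 : 3 / 16 ≤ pr (fun f : Fin M → Bool => 1 / 4 ≤ ‖Phi q (sg f) ξ‖ ^ 2) := by
    have h := paley (fun u => psi q (ξ u))
    rw [psi_nsq (by omega), hξ1] at h
    exact h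
  set Bad : List.Vector (Vr M × ZMod q) R → (Fin M → Bool) → Prop := fun v f =>
    GoodH L θ (msk (a + tot v.toList) w) ∧ δ < ‖Phi q (sg f) ξ - Phi q (sg f)
      (alg ξ (xi (msk (a + tot v.toList) w) 0) • xi (msk (a + tot v.toList) w) 0)‖ with hBad
  have e2 : ∀ v, pr (Bad v) ≤ 4 * Real.exp (-((L : ℝ) ^ 2 / 4)) := by
    intro v
    by_cases hv : GoodH L θ (msk (a + tot v.toList) w)
    · refine (pr_mono fun f hf => ?_).trans (hbad v.toList (by rw [List.Vector.toList_length]) hv).2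
      exact hf.2
    · rw [pr_zero (fun f (h : Bad v f) => hv h.1)]
      positivity
  have e3 : pr (fun f : Fin M → Bool => ∃ v ∈ (Finset.univ : Finset (List.Vector (Vr M × ZMod q) R)), Bad v f) ≤ 1 / 16 := by
    refine (pr_exists _ _).trans ?_
    refine (Finset.sum_le_sum fun v _ => e2 v).trans ?_
    rw [Finset.sum_const, Finset.card_univ, nsmul_eq_mul]
    have h1 : (Fintype.card (List.Vector (Vr M × ZMod q) R) : ℝ) * (4 * Real.exp (-((L : ℝ) ^ 2 / 4))) ≤
        Real.exp (1200 * L * Real.log ((L : ℝ) + 1)) * (4 * Real.exp (-((L : ℝ) ^ 2 / 4))) :=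
      mul_le_mul_of_nonneg_right hcard (by positivity)
    refine h1.trans ?_
    have h2 : Real.exp ((L : ℝ) ^ 2 / 4) * Real.exp (-((L : ℝ) ^ 2 / 4)) = 1 := by
      rw [← Real.exp_add, add_neg_cancel, Real.exp_zero]
    have h3 := mul_le_mul_of_nonneg_right hexp (Real.exp_pos (-((L : ℝ) ^ 2 / 4))).le
    rw [h2] at h3
    linarith
  have e4 : pr (fun f : Fin M → Bool => 1 / 4 ≤ ‖Phi q (sg f) ξ‖ ^ 2) ≤
      pr (fun f : Fin M → Bool => PhG q R L θ δ (sg f) w a) +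
      pr (fun f : Fin M → Bool => ∃ v ∈ (Finset.univ : Finset (List.Vector (Vr M × ZMod q) R)), Bad v f) := by
    refine (pr_mono fun f hf => ?_).trans (pr_or _ _)
    by_cases hb : ∃ v ∈ (Finset.univ : Finset (List.Vector (Vr M × ZMod q) R)), Bad v f
    · exact Or.inr hb
    · left
      refine ⟨?_, ?_⟩
      · intro x hx
        obtain ⟨c, hc1, rfl⟩ := tv_xi hM0 hH hgapH hx
        rw [Phi_smul hc1, norm_mul, norm_pow, hc1, one_pow, one_mul]
        have h4 : (1 / 2 : ℝ) ^ 2 ≤ ‖Phi q (sg f) ξ‖ ^ 2 := by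
          norm_num at hf ⊢
          exact hf
        exact (abs_le_of_sq_le_sq' h4 (norm_nonneg _)).2
      · intro s hs hG' x x' hx hx' hre him
        obtain ⟨v, hv⟩ := pad hM0 s hs
        have hG'' := hG'
        rw [← hv] at hG''
        have hnb : ¬ Bad v f := fun h => hb ⟨v, Finset.mem_univ v, h⟩
        have hle : ‖Phi q (sg f) ξ - Phi q (sg f)
            (alg ξ (xi (msk (a + tot v.toList) w) 0) • xi (msk (a + tot v.toList) w) 0)‖ ≤ δ := by
          by_contra hlt'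
          exact hnb ⟨hG'', not_le.1 hlt'⟩
        rw [hv] at hle
        have hH' : (msk (a + tot s) w).IsHermitian := msk_herm hw (fun u v => by
          rw [Pi.add_apply, Pi.add_apply, Pi.add_apply, Pi.add_apply, hneg, tot_neg s u v, neg_add])
        have hz := (hbad s hs hG').1
        obtain ⟨c, hc1, rfl⟩ := tv_xi hM0 hH hgapH hx
        obtain ⟨c', hc1', rfl⟩ := tv_xi hM0 hH' (hgap' s hG') hx'
        set ξ' := xi (msk (a + tot s) w) 0 with hξ'
        have hcc : c * (starRingEnd ℂ) c = 1 := by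
          rw [Complex.mul_conj', hc1]
          norm_num
        have hval : ip (c • ξ) (c' • ξ') = (‖ip ξ ξ'‖ : ℂ) := by
          have hnorm : ‖ip (c • ξ) (c' • ξ')‖ = ‖ip ξ ξ'‖ := by
            rw [ip_smul_left, ip_smul_right, norm_mul, norm_mul, RCLike.norm_conj, hc1, hc1', one_mul, one_mul]
          have hreal : ip (c • ξ) (c' • ξ') = ((ip (c • ξ) (c' • ξ')).re : ℂ) := by
            apply Complex.ext
            · simp
            · simpa using him
          rw [← hnorm]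
          conv_rhs => rw [hreal]
          rw [Complex.norm_real, Real.norm_of_nonneg hre, ← hreal]
        have hc' : c' = c * alg ξ ξ' := by
          rw [ip_smul_left, ip_smul_right] at hval
          have h5 : c' * ip ξ ξ' = c * (‖ip ξ ξ'‖ : ℂ) := by
            rw [← hval]
            linear_combination (-(c' * ip ξ ξ')) * hcc
          have h6 : c * alg ξ ξ' * ip ξ ξ' = c * (‖ip ξ ξ'‖ : ℂ) := by
            rw [mul_assoc, alg_mul hz]
          exact mul_right_cancel₀ hz (h5.trans h6.symm)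
        rw [hc', mul_smul, Phi_smul hc1, Phi_smul hc1, ← mul_sub, norm_mul, norm_pow, hc1, one_pow, one_mul]
        exact hle
  linarith

end ACpFrege
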